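import Pool.Agent.Helper86.Ac.Goals

/-! The sum of the sixty terms is symmetric. -/

namespace Pool.Agent.Helper80.Ac

open Pool.Agent.Helper86.Ac

theorem p45 {α : Type} {D2 D4 : α → α → α → α → α → α → ℤ} (h : SymD D2 D4) (p q a b c d : α) :
    D2 p q a b d c = D2 p q a b c d := by
  rw [← h.p24 p q a b d c, h.p23, h.p24]

theorem sw0 {α : Type} {D2 D4 : α → α → α → α → α → α → ℤ} (h : SymD D2 D4)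
    (x0 x1 x2 x3 x4 x5 : α) :
    KT D2 D4 x1 x0 x2 x3 x4 x5 = KT D2 D4 x0 x1 x2 x3 x4 x5 := by
  unfold KT
  rw [h.p01 x0 x1 x2 x3 x4 x5,
    h.p01 x0 x1 x2 x4 x3 x5,
    h.p01 x0 x1 x2 x5 x3 x4,
    h.p23 x2 x3 x0 x1 x4 x5,
    h.p24 x2 x3 x0 x5 x1 x4,
    h.p24 x2 x3 x0 x4 x1 x5,
    h.p23 x2 x4 x0 x1 x3 x5,
    h.p24 x2 x4 x0 x5 x1 x3,
    h.p24 x2 x4 x0 x3 x1 x5,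
    h.p23 x2 x5 x0 x1 x3 x4,
    h.p24 x2 x5 x0 x4 x1 x3,
    h.p24 x2 x5 x0 x3 x1 x4,
    h.p23 x3 x4 x0 x1 x2 x5,
    h.p24 x3 x4 x0 x5 x1 x2,
    h.p24 x3 x4 x0 x2 x1 x5,
    h.p23 x3 x5 x0 x1 x2 x4,
    h.p24 x3 x5 x0 x4 x1 x2,
    h.p24 x3 x5 x0 x2 x1 x4,
    h.p23 x4 x5 x0 x1 x2 x3,
    h.p24 x4 x5 x0 x3 x1 x2,
    h.p24 x4 x5 x0 x2 x1 x3,
    h.q45 x2 x3 x4 x5 x0 x1,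
    h.q01 x0 x1 x4 x5 x2 x3,
    h.q01 x0 x1 x3 x5 x2 x4,
    h.q01 x0 x1 x3 x4 x2 x5,
    h.q01 x0 x1 x2 x5 x3 x4,
    h.q01 x0 x1 x2 x4 x3 x5,
    h.q01 x0 x1 x2 x3 x4 x5]
  ring

theorem sw1 {α : Type} {D2 D4 : α → α → α → α → α → α → ℤ} (h : SymD D2 D4)
    (x0 x1 x2 x3 x4 x5 : α) :
    KT D2 D4 x0 x2 x1 x3 x4 x5 = KT D2 D4 x0 x1 x2 x3 x4 x5 := by
  unfold KT
  rw [h.p23 x0 x3 x1 x2 x4 x5,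
    h.p24 x0 x3 x1 x5 x2 x4,
    h.p24 x0 x3 x1 x4 x2 x5,
    h.p23 x0 x4 x1 x2 x3 x5,
    h.p24 x0 x4 x1 x5 x2 x3,
    h.p24 x0 x4 x1 x3 x2 x5,
    h.p23 x0 x5 x1 x2 x3 x4,
    h.p24 x0 x5 x1 x4 x2 x3,
    h.p24 x0 x5 x1 x3 x2 x4,
    h.p01 x1 x2 x0 x3 x4 x5,
    h.p01 x1 x2 x0 x4 x3 x5,
    h.p01 x1 x2 x0 x5 x3 x4,
    p45 h x3 x4 x0 x5 x1 x2,
    p45 h x3 x5 x0 x4 x1 x2,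
    p45 h x4 x5 x0 x3 x1 x2,
    h.q01 x1 x2 x4 x5 x0 x3,
    h.q01 x1 x2 x3 x5 x0 x4,
    h.q01 x1 x2 x3 x4 x0 x5,
    h.q45 x0 x3 x4 x5 x1 x2,
    h.q12 x0 x1 x2 x5 x3 x4,
    h.q12 x0 x1 x2 x4 x3 x5,
    h.q12 x0 x1 x2 x3 x4 x5]
  ring

theorem sw2 {α : Type} {D2 D4 : α → α → α → α → α → α → ℤ} (h : SymD D2 D4)
    (x0 x1 x2 x3 x4 x5 : α) :
    KT D2 D4 x0 x1 x3 x2 x4 x5 = KT D2 D4 x0 x1 x2 x3 x4 x5 := by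
  unfold KT
  rw [h.p23 x0 x1 x2 x3 x4 x5,
    h.p24 x0 x1 x2 x5 x3 x4,
    h.p24 x0 x1 x2 x4 x3 x5,
    p45 h x0 x4 x1 x5 x2 x3,
    p45 h x0 x5 x1 x4 x2 x3,
    p45 h x1 x4 x0 x5 x2 x3,
    p45 h x1 x5 x0 x4 x2 x3,
    h.p01 x2 x3 x0 x1 x4 x5,
    h.p01 x2 x3 x0 x4 x1 x5,
    h.p01 x2 x3 x0 x5 x1 x4,
    p45 h x4 x5 x0 x1 x2 x3,
    h.q01 x2 x3 x4 x5 x0 x1,
    h.q12 x1 x2 x3 x5 x0 x4,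
    h.q12 x1 x2 x3 x4 x0 x5,
    h.q12 x0 x2 x3 x5 x1 x4,
    h.q12 x0 x2 x3 x4 x1 x5,
    h.q45 x0 x1 x4 x5 x2 x3,
    h.q23 x0 x1 x2 x3 x4 x5]
  ring

theorem sw3 {α : Type} {D2 D4 : α → α → α → α → α → α → ℤ} (h : SymD D2 D4)
    (x0 x1 x2 x3 x4 x5 : α) :
    KT D2 D4 x0 x1 x2 x4 x3 x5 = KT D2 D4 x0 x1 x2 x3 x4 x5 := by
  unfold KT
  rw [p45 h x0 x1 x2 x5 x3 x4,
    p45 h x0 x2 x1 x5 x3 x4,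
    p45 h x0 x5 x1 x2 x3 x4,
    p45 h x1 x2 x0 x5 x3 x4,
    p45 h x1 x5 x0 x2 x3 x4,
    p45 h x2 x5 x0 x1 x3 x4,
    h.p01 x3 x4 x0 x1 x2 x5,
    h.p01 x3 x4 x0 x2 x1 x5,
    h.p01 x3 x4 x0 x5 x1 x2,
    h.q12 x2 x3 x4 x5 x0 x1,
    h.q12 x1 x3 x4 x5 x0 x2,
    h.q23 x1 x2 x3 x4 x0 x5,
    h.q12 x0 x3 x4 x5 x1 x2,
    h.q23 x0 x2 x3 x4 x1 x5,
    h.q23 x0 x1 x3 x4 x2 x5,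
    h.q45 x0 x1 x2 x5 x3 x4]
  ring

theorem sw4 {α : Type} {D2 D4 : α → α → α → α → α → α → ℤ} (h : SymD D2 D4)
    (x0 x1 x2 x3 x4 x5 : α) :
    KT D2 D4 x0 x1 x2 x3 x5 x4 = KT D2 D4 x0 x1 x2 x3 x4 x5 := by
  unfold KT
  rw [p45 h x0 x1 x2 x3 x4 x5,
    p45 h x0 x2 x1 x3 x4 x5,
    p45 h x0 x3 x1 x2 x4 x5,
    p45 h x1 x2 x0 x3 x4 x5,
    p45 h x1 x3 x0 x2 x4 x5,
    p45 h x2 x3 x0 x1 x4 x5,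
    h.p01 x4 x5 x0 x1 x2 x3,
    h.p01 x4 x5 x0 x2 x1 x3,
    h.p01 x4 x5 x0 x3 x1 x2,
    h.q23 x2 x3 x4 x5 x0 x1,
    h.q23 x1 x3 x4 x5 x0 x2,
    h.q23 x1 x2 x4 x5 x0 x3,
    h.q23 x0 x3 x4 x5 x1 x2,
    h.q23 x0 x2 x4 x5 x1 x3,
    h.q23 x0 x1 x4 x5 x2 x3,
    h.q45 x0 x1 x2 x3 x4 x5]
  ring

theorem symkt : SymKTStmt := by
  intro α D2 D4 h x0 x1 x2 x3 x4 x5
  exact ⟨sw0 h x0 x1 x2 x3 x4 x5, sw1 h x0 x1 x2 x3 x4 x5, sw2 h x0 x1 x2 x3 x4 x5,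
    sw3 h x0 x1 x2 x3 x4 x5, sw4 h x0 x1 x2 x3 x4 x5⟩

end Pool.Agent.Helper80.Ac
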